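import Mathlib

set_option autoImplicit false

/-!
# Chebyshev's inequality for the binomial law (helper31, project KP of helper26)
-/

namespace Pool.Agent.J4H31.KP

open Finset

theorem sum_conv (K : ℕ) (x : ℝ) (f : ℕ → ℝ) :
    ∑ A : Finset (Fin K), x ^ #A * (1 - x) ^ (K - #A) * f #A =
      ∑ k ∈ range (K + 1), (K.choose k : ℝ) * x ^ k * (1 - x) ^ (K - k) * f k := by
  have h := Finset.sum_powerset_apply_card (x := (univ : Finset (Fin K))) (fun k => x ^ k * (1 - x) ^ (K - k) * f k)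
  rw [Finset.powerset_univ, card_univ, Fintype.card_fin] at h
  rw [h]
  refine sum_congr rfl fun k _ => ?_
  rw [nsmul_eq_mul]
  ring

theorem sum_one (K : ℕ) (x : ℝ) :
    ∑ k ∈ range (K + 1), (K.choose k : ℝ) * x ^ k * (1 - x) ^ (K - k) = 1 := by
  have h := add_pow x (1 - x) K
  rw [add_sub_cancel, one_pow] at h
  refine Eq.trans ?_ h.symm
  exact sum_congr rfl fun k _ => by ring

theorem sum_var (K : ℕ) (x : ℝ) :
    ∑ k ∈ range (K + 1), (K.choose k : ℝ) * x ^ k * (1 - x) ^ (K - k) * ((K : ℝ) * x - k) ^ 2 = K * x * (1 - x) := by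
  have h := congrArg (Polynomial.eval x) (bernsteinPolynomial.variance ℝ K)
  rw [Polynomial.eval_finsetSum] at h
  simp only [bernsteinPolynomial, Polynomial.eval_mul, Polynomial.eval_pow, Polynomial.eval_sub,  Polynomial.eval_X, Polynomial.eval_natCast, Polynomial.eval_one, nsmul_eq_mul] at h
  rw [← h]
  refine sum_congr rfl fun k _ => ?_
  ring

open Classical in
theorem chb (K : ℕ) (x ε : ℝ) (hK : 1 ≤ K) (hx0 : 0 ≤ x) (hx1 : x ≤ 1) (hε : 0 < ε) :
    1 - 1 / (4 * K * ε ^ 2) ≤ ∑ A : Finset (Fin K), x ^ #A * (1 - x) ^ (K - #A) *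
      (if |(#A : ℝ) / K - x| ≤ ε then 1 else 0) := by
  have hK0 : (0 : ℝ) < K := by exact_mod_cast hK
  rw [sum_conv K x (fun k => if |(k : ℝ) / K - x| ≤ ε then 1 else 0)]
  have hε2 : (0 : ℝ) < ε ^ 2 := by positivity
  have h1 : ∀ k ∈ range (K + 1), (K.choose k : ℝ) * x ^ k * (1 - x) ^ (K - k) -
      (K.choose k : ℝ) * x ^ k * (1 - x) ^ (K - k) * (if |(k : ℝ) / K - x| ≤ ε then 1 else 0) ≤
      (K.choose k : ℝ) * x ^ k * (1 - x) ^ (K - k) * ((K : ℝ) * x - k) ^ 2 * (1 / (K ^ 2 * ε ^ 2)) := by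
    intro k _
    have hp : 0 ≤ (K.choose k : ℝ) * x ^ k * (1 - x) ^ (K - k) := by
      have : 0 ≤ 1 - x := by linarith
      positivity
    by_cases h : |(k : ℝ) / K - x| ≤ ε
    · rw [if_pos h, mul_one, sub_self]
      positivity
    · rw [if_neg h, mul_zero, sub_zero]
      push Not at h
      have h2 : ε ^ 2 ≤ ((k : ℝ) / K - x) ^ 2 := by
        rw [← sq_abs ((k : ℝ) / K - x)]
        exact pow_le_pow_left₀ hε.le h.le 2
      have h3 : 1 ≤ ((K : ℝ) * x - k) ^ 2 * (1 / (K ^ 2 * ε ^ 2)) := by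
        have e1 : ((K : ℝ) * x - k) ^ 2 * (1 / (K ^ 2 * ε ^ 2)) = ((k : ℝ) / K - x) ^ 2 / ε ^ 2 := by
          field_simp
          ring
        rw [e1, le_div_iff₀ hε2, one_mul]
        exact h2
      have h4 := le_mul_of_one_le_right hp h3
      rwa [← mul_assoc] at h4
  have h2 := sum_le_sum h1
  rw [sum_sub_distrib, sum_one, ← sum_mul, sum_var] at h2
  have h3 : (K : ℝ) * x * (1 - x) * (1 / (K ^ 2 * ε ^ 2)) ≤ 1 / (4 * K * ε ^ 2) := by
    have e1 : (K : ℝ) * x * (1 - x) * (1 / (K ^ 2 * ε ^ 2)) = (4 * (x * (1 - x))) * (1 / (4 * K * ε ^ 2)) := by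
      field_simp
    rw [e1]
    have e2 : 4 * (x * (1 - x)) ≤ 1 := by nlinarith [sq_nonneg (2 * x - 1)]
    have e3 : 0 ≤ 1 / (4 * (K : ℝ) * ε ^ 2) := by positivity
    calc _ ≤ 1 * (1 / (4 * (K : ℝ) * ε ^ 2)) := mul_le_mul_of_nonneg_right e2 e3
      _ = _ := one_mul _
  linarith

end Pool.Agent.J4H31.KP
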