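import Pool.Agent.J4H26.KP.Noat
import Pool.Agent.J4H31.KP.ChbCore

set_option autoImplicit false

/-!
# Chebyshev's inequality for the binomial law (helper31, project KP of helper26)
-/

namespace Pool.Agent.J4H31.KP

open Pool.Agent.J4H26.KP

/-- (N5) -/
theorem t_CHB : S_CHB := fun K x ε hK hx0 hx1 hε => chb K x ε hK hx0 hx1 hε

end Pool.Agent.J4H31.KP
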