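import Mathlib
import Pool.Agent.J4H39.L2

set_option autoImplicit false

/-!
# Project KP, pieces (P1), (P2), the two estimates (helper31)
-/

namespace Pool.Agent.J4H31.KP

open Finset Filter Real
open Pool.Agent.J4H39 (U Erf U_erf Erf_mono Erf_lim U_neg)

theorem Erf_pos {y : ℝ} (hy : 0 < y) : 0 < Erf y := by
  unfold Erf
  have h1 : 0 < ∫ u in (0 : ℝ)..y, Real.exp (-u ^ 2) := by
    apply intervalIntegral.intervalIntegral_pos_of_pos
    · exact Continuous.intervalIntegrable (by fun_prop) _ _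
    · intro u; exact Real.exp_pos _
    · exact hy
  have hpi : (0 : ℝ) < √ Real.pi := Real.sqrt_pos.2 Real.pi_pos
  positivity

/-- the argument of the error function -/
theorem arg_le {g : ℝ} (hg : 0 < g) {k : ℕ} (hk : 1 ≤ k) {d : ℕ} (hd : g * √k ≤ (d : ℝ)) :
    g ≤ ((2 * d : ℕ) : ℝ) / √ (2 * ((2 * k : ℕ) : ℝ)) := by
  have hk0 : (0 : ℝ) < √k := Real.sqrt_pos.2 (by exact_mod_cast hk)
  have e : √ (2 * ((2 * k : ℕ) : ℝ)) = 2 * √k := by
    push_cast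
    rw [show (2 : ℝ) * (2 * k) = 2 ^ 2 * k by ring, Real.sqrt_mul (by norm_num), Real.sqrt_sq (by norm_num)]
  rw [e, le_div_iff₀ (by positivity)]
  push_cast
  linarith

theorem U_abs' (q : ℕ) (d : ℤ) : U q (2 * d) = U q (((2 * d.natAbs : ℕ) : ℕ) : ℤ) := by
  rcases le_total 0 d with h | h
  · congr 1
    push_cast
    rw [abs_of_nonneg h]
  · rw [← U_neg]
    congr 1
    push_cast
    rw [abs_of_nonpos h]
    ring

theorem main {ε g : ℝ} (hε : 0 < ε) (hg : 0 < g) : ∀ᶠ k : ℕ in atTop, ∀ d : ℤ, g * √k ≤ |(d : ℝ)| →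
    Erf g - ε ≤ U (2 * k) (2 * d) := by
  obtain ⟨q₀, hq⟩ := U_erf hε
  filter_upwards [eventually_ge_atTop (max q₀ 1)] with k hk d hd
  have hk1 : 1 ≤ k := (le_max_right _ _).trans hk
  have hkq : q₀ ≤ 2 * k := ((le_max_left _ _).trans hk).trans (by omega)
  have hd' : g * √k ≤ ((d.natAbs : ℕ) : ℝ) := by
    rw [Nat.cast_natAbs]
    push_cast
    exact hd
  have h1 := Erf_mono (arg_le hg hk1 hd')
  have h2 := (abs_le.mp (hq (2 * k) hkq (2 * d.natAbs))).1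
  rw [U_abs']
  linarith

theorem UL : ∀ g : ℝ, 0 < g → ∃ c : ℝ, 0 < c ∧ ∀ᶠ k : ℕ in atTop, ∀ d : ℤ, g * √k ≤ |(d : ℝ)| → c ≤ U (2 * k) (2 * d) := by
  intro g hg
  have h := Erf_pos hg
  refine ⟨Erf g / 2, by positivity, ?_⟩
  filter_upwards [main (show 0 < Erf g / 2 by positivity) hg] with k hk d hd
  have := hk d hd
  linarith

theorem UFAR : ∀ η : ℝ, 0 < η → ∃ G : ℝ, 0 < G ∧ ∀ᶠ k : ℕ in atTop, ∀ d : ℤ, G * √k ≤ |(d : ℝ)| →
    1 - η ≤ U (2 * k) (2 * d) := by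
  intro η hη
  have h1 : ∀ᶠ y : ℝ in atTop, 1 - η / 2 < Erf y := Erf_lim.eventually (lt_mem_nhds (by linarith))
  obtain ⟨G, hG, hG0⟩ := (h1.and (eventually_gt_atTop 0)).exists
  refine ⟨G, hG0, ?_⟩
  filter_upwards [main (show 0 < η / 2 by positivity) hG0] with k hk d hd
  have := hk d hd
  linarith

end Pool.Agent.J4H31.KP
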